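import Pool.Agent.Helper76.TK2.StA

/-!
# Project TK2, MODULE KK2: the kernel of the twisted evaluation is the image of `c u - 1`
-/

set_option autoImplicit false

namespace Pool.Agent.Helper73.TK2

open Pool.Agent.Helper76.TK2 Pool.Agent.Helper14.CV Pool.Agent.Helper14.TT
open Pool.Agent.Helper76.TX (evX)
open Pool.Agent.Helper28.WK

private theorem sym_mono {G : ℤ → ℤ → ℂ} {s s' : ℕ} (hs : s ≤ s') (h : Sym 0 s G) :
    Sym 0 s' G :=
  ⟨h.1, fun a b c d hd hb hc => h.2 a b c d hd hb ((pow_dvd_pow 2 hs).trans hc)⟩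

private theorem aux (hks : Ks2) (hb : B42) (D : ℕ) (hD : Okd D) (n : ℕ) : ∀ G : ℤ → ℤ → ℂ,
    Sym 0 (n + 3) G → EqC (act 0 (-1) (2 ^ (n + 3)) 0 G) (-(wT D (n + 3) • G)) →
    EqC (act (-1) 0 0 1 G) (-G) → evX D G = 0 →
    ∃ ψ : ℤ → ℤ → ℂ, Sym 0 (n + 2) ψ ∧ EqC (jacobiSym 2 D • act 2 0 0 1 ψ - ψ) G := by
  induction n with
  | zero =>
    intro G hG hW hS hev
    obtain ⟨G', ψ, hG', hψ, _, hS', _, hE⟩ := hks D 3 G hD le_rfl hG hW hS hev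
    refine ⟨ψ, hψ, ?_⟩
    have h0 : EqC G' 0 := hb G' hG' hS'
    have h1 : EqC (G' + (jacobiSym 2 D • act 2 0 0 1 ψ - ψ))
        (0 + (jacobiSym 2 D • act 2 0 0 1 ψ - ψ)) := h0.add (EqC.refl _)
    rw [zero_add] at h1
    exact (hE.trans h1).symm
  | succ n ih =>
    intro G hG hW hS hev
    obtain ⟨G', ψ, hG', hψ, hW', hS', hev', hE⟩ :=
      hks D (n + 1 + 3) G hD (by omega) hG hW hS hev
    have e1 : n + 1 + 3 - 1 = n + 3 := by omega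
    rw [e1] at hG' hψ hW'
    obtain ⟨ψ', hψ', hE'⟩ := ih G' hG' hW' hS' hev'
    refine ⟨ψ' + ψ, (sym_mono (by omega) hψ').add (sym_mono (by omega) hψ), ?_⟩
    have h1 : EqC (jacobiSym 2 D • act 2 0 0 1 ψ' - ψ' + (jacobiSym 2 D • act 2 0 0 1 ψ - ψ))
        (G' + (jacobiSym 2 D • act 2 0 0 1 ψ - ψ)) := hE'.add (EqC.refl _)
    have h2 : jacobiSym 2 D • act 2 0 0 1 (ψ' + ψ) - (ψ' + ψ)
        = jacobiSym 2 D • act 2 0 0 1 ψ' - ψ' + (jacobiSym 2 D • act 2 0 0 1 ψ - ψ) := by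
      rw [act_add, smul_add, add_sub_add_comm]
    rw [h2]
    exact h1.trans hE.symm

theorem hKk2 : StKK2 := by
  intro hks hb D m G hD hm hG hW hS hev
  obtain ⟨n, rfl⟩ : ∃ n, m = n + 3 := ⟨m - 3, by omega⟩
  exact aux hks hb D hD n G hG hW hS hev

end Pool.Agent.Helper73.TK2
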